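import Mathlib

/-!
# Sums of rational multiples of the `p`-th roots of unity
-/

set_option autoImplicit false

namespace Pool.Agent.Helper606_PD

open Polynomial

variable {p : ℕ} [hp : Fact p.Prime]

lemma const_of_sum {ζ : ℂ} (hζ : IsPrimitiveRoot ζ p) (u : ZMod p → ℚ)
    (h : ∑ j : ZMod p, (u j : ℂ) * ζ ^ j.val = 0) : ∃ q, ∀ j, u j = q := by
  set P : ℚ[X] := ∑ j : ZMod p, C (u j) * X ^ j.val with hP
  have hcoeff : ∀ j : ZMod p, P.coeff j.val = u j := by
    intro j
    rw [hP, finset_sum_coeff]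
    simp only [coeff_C_mul, coeff_X_pow]
    rw [Finset.sum_eq_single j]
    · simp
    · intro b _ hb
      have : ¬ j.val = b.val := fun e => hb (ZMod.val_injective p e.symm)
      simp [this]
    · intro h; exact absurd (Finset.mem_univ j) h
  have hdeg : P.natDegree ≤ p - 1 := by
    refine natDegree_sum_le_of_forall_le _ _ fun j _ => ?_
    refine (natDegree_C_mul_X_pow_le _ _).trans ?_
    have := ZMod.val_lt j
    omega
  have hroot : aeval ζ P = 0 := by
    rw [hP, map_sum, ← h]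
    refine Finset.sum_congr rfl fun j _ => ?_
    simp
  have hmin := cyclotomic_eq_minpoly_rat hζ hp.out.pos
  have hdvd : cyclotomic p ℚ ∣ P := by
    rw [hmin]; exact minpoly.dvd ℚ ζ hroot
  obtain ⟨Q, hQ⟩ := hdvd
  by_cases hP0 : P = 0
  · exact ⟨0, fun j => by rw [← hcoeff, hP0, coeff_zero]⟩
  have hQ0 : Q ≠ 0 := by rintro rfl; exact hP0 (by rw [hQ, mul_zero])
  have hdegQ : Q.natDegree = 0 := by
    have h1 : P.natDegree = (cyclotomic p ℚ).natDegree + Q.natDegree := by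
      rw [hQ, natDegree_mul (cyclotomic_ne_zero p ℚ) hQ0]
    rw [natDegree_cyclotomic, Nat.totient_prime hp.out] at h1
    omega
  obtain ⟨q, hq⟩ := natDegree_eq_zero.mp hdegQ
  refine ⟨q, fun j => ?_⟩
  rw [← hcoeff, hQ, ← hq, coeff_mul_C, cyclotomic_prime, finset_sum_coeff]
  simp only [coeff_X_pow]
  rw [Finset.sum_ite_eq, if_pos (Finset.mem_range.mpr (ZMod.val_lt j)), one_mul]

lemma pow_val_add {ζ : ℂ} (hζ : ζ ^ p = 1) (i j : ZMod p) :
    ζ ^ (i + j).val = ζ ^ i.val * ζ ^ j.val := by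
  rw [← pow_add, ZMod.val_add]
  conv_rhs => rw [← Nat.mod_add_div (i.val + j.val) p]
  rw [pow_add, pow_mul, hζ, one_pow, mul_one]

/-- a nonzero function with sum zero is a nonzero divisor on the functions modulo constants -/
lemma const_of_conv (n u : ZMod p → ℚ) (hn0 : ∑ j, n j = 0) (hn : ∃ j, n j ≠ 0)
    (h : ∀ i, ∑ j, n (j - i) * u j = 0) : ∃ q, ∀ j, u j = q := by
  have hζ := Complex.isPrimitiveRoot_exp p hp.out.ne_zero
  set ζ := Complex.exp (2 * Real.pi * Complex.I / p) with hζd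
  have hζp : ζ ^ p = 1 := hζ.pow_eq_one
  have h1 : (∑ j : ZMod p, (u j : ℂ) * ζ ^ j.val) * (∑ k : ZMod p, ((n (-k) : ℚ) : ℂ) * ζ ^ k.val) = 0 := by
    rw [Finset.sum_mul_sum]
    have h2 : ∀ j : ZMod p, ∑ k : ZMod p, ((u j : ℂ) * ζ ^ j.val) * (((n (-k) : ℚ) : ℂ) * ζ ^ k.val) =
        ∑ i : ZMod p, ((n (j - i) : ℚ) : ℂ) * (u j : ℂ) * ζ ^ i.val := by
      intro j
      refine Fintype.sum_equiv (Equiv.addLeft j) _ _ fun k => ?_
      simp only [Equiv.coe_addLeft]
      rw [pow_val_add hζp, sub_add_cancel_left]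
      ring
    rw [Finset.sum_congr rfl fun j _ => h2 j, Finset.sum_comm]
    refine Finset.sum_eq_zero fun i _ => ?_
    rw [← Finset.sum_mul]
    have h3 : ∑ j : ZMod p, ((n (j - i) : ℚ) : ℂ) * (u j : ℂ) = ((∑ j : ZMod p, n (j - i) * u j : ℚ) : ℂ) := by
      push_cast; rfl
    rw [h3, h i]
    simp
  rcases mul_eq_zero.mp h1 with h2 | h2
  · exact const_of_sum hζ u h2
  · exfalso
    obtain ⟨q, hq⟩ := const_of_sum hζ (fun k => n (-k)) h2
    have h4 : ∀ j, n j = q := fun j => by rw [← neg_neg j]; exact hq (-j)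
    simp only [h4, Finset.sum_const, Finset.card_univ, ZMod.card, nsmul_eq_mul] at hn0
    have h5 : (p : ℚ) ≠ 0 := by exact_mod_cast hp.out.ne_zero
    have h6 : q = 0 := by
      rcases mul_eq_zero.mp hn0 with h | h
      · exact absurd h h5
      · exact h
    obtain ⟨j, hj⟩ := hn
    exact hj (by rw [h4, h6])

end Pool.Agent.Helper606_PD
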