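import Pool.Agent.Helper606_PD.A
import Pool.Agent.Helper606_CZ.C5

/-!
# Elements of prime order on a set of `2 p` points with a central involution
-/

set_option autoImplicit false
set_option linter.unusedSectionVars false

open scoped Classical

namespace Pool.Agent.Helper606_PD

open Pool.Agent.Helper606_CZ Pool.Agent.Q11.CZ

variable {G : Type} [Group G] [Fintype G] {c : G} {X : Type} [Fintype X] [MulAction G X]
variable {p : ℕ} [hp : Fact p.Prime]

/-- `t` acts with order `p` -/
def OrdP (t : G) (p : ℕ) (X : Type) [MulAction G X] : Prop :=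
  (∀ x : X, t ^ p • x = x) ∧ ∃ x : X, t • x ≠ x

lemma per {t : G} (ht : ∀ x : X, t ^ p • x = x) {y : X} (hy : t • y ≠ y) (k : ℕ) :
    t ^ k • y = y ↔ p ∣ k := by
  rw [MulAction.pow_smul_eq_iff_period_dvd]
  have h1 : MulAction.period t y ∣ p := MulAction.pow_smul_eq_iff_period_dvd.mp (ht y)
  rcases (Nat.dvd_prime hp.out).mp h1 with h2 | h2
  · exfalso
    apply hy
    have := MulAction.pow_smul_eq_iff_period_dvd (n := 1) (m := t) (a := y)
    rw [pow_one] at this
    exact this.mpr (by rw [h2])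
  · rw [h2]

lemma pow_eq {t : G} (ht : ∀ x : X, t ^ p • x = x) {y : X} (hy : t • y ≠ y) {a b : ℕ}
    (ha : a < p) (hb : b < p) (h : t ^ a • y = t ^ b • y) : a = b := by
  wlog hab : a ≤ b generalizing a b
  · exact (this hb ha h.symm (by omega)).symm
  have h1 : t ^ (b - a) • y = y := by
    have h2 : t ^ b • y = t ^ a • t ^ (b - a) • y := by
      rw [← mul_smul, ← pow_add]
      congr 2
      omega
    rw [h2] at h
    exact (MulAction.injective (t ^ a) h).symm
  have h3 := (per ht hy _).mp h1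
  have h4 := Nat.eq_zero_of_dvd_of_lt h3 (by omega)
  omega

section
variable (hc : ∀ g, c * g = g * c) (hc2 : c * c = 1) (hfree : ∀ x : X, c • x ≠ x)
include hc hc2 hfree

lemma not_c (h2 : p ≠ 2) {t : G} (ht : ∀ x : X, t ^ p • x = x) {y : X} (hy : t • y ≠ y) (k : ℕ) :
    t ^ k • y ≠ c • y := by
  intro h
  have h1 : t ^ (2 * k) • y = y := by
    rw [two_mul, pow_add, mul_smul, h, ← mul_smul, ← hc, mul_smul, h, ccs hc2]
  rw [per ht hy] at h1
  have h3 : p ∣ k := by
    rcases (Nat.Prime.dvd_mul hp.out).mp h1 with h4 | h4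
    · exact absurd ((Nat.prime_dvd_prime_iff_eq hp.out Nat.prime_two).mp h4) h2
    · exact h4
  rw [(per ht hy k).mpr h3] at h
  exact hfree y h.symm

lemma surj_moved (h2 : p ≠ 2) (hcard : Fintype.card X = 2 * p) {t : G}
    (ht : ∀ x : X, t ^ p • x = x) {y : X} (hy : t • y ≠ y) :
    Function.Bijective (Sum.elim (fun k : ZMod p => t ^ k.val • y)
      (fun k : ZMod p => c • t ^ k.val • y)) := by
  rw [Fintype.bijective_iff_injective_and_card]
  refine ⟨?_, ?_⟩
  · have hne : ∀ k l : ZMod p, t ^ k.val • y ≠ c • t ^ l.val • y := by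
      intro k l h
      have h3 : t ^ (p - l.val + k.val) • y = c • y := by
        rw [pow_add, mul_smul, h, ← mul_smul _ c, ← hc, mul_smul, ← mul_smul (t ^ (p - l.val)), ← pow_add]
        have := ZMod.val_lt l
        rw [show p - l.val + l.val = p by omega, ht]
      exact not_c hc hc2 hfree h2 ht hy _ h3
    rintro (k | k) (l | l) h
    · exact congrArg Sum.inl (ZMod.val_injective p (pow_eq ht hy (ZMod.val_lt k) (ZMod.val_lt l) h))
    · exact absurd h (hne k l)
    · exact absurd h.symm (hne l k)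
    · simp only [Sum.elim_inr] at h
      have h' := MulAction.injective c h
      exact congrArg Sum.inr (ZMod.val_injective p (pow_eq ht hy (ZMod.val_lt k) (ZMod.val_lt l) h'))
  · rw [Fintype.card_sum, ZMod.card, hcard, two_mul]

lemma moved (h2 : p ≠ 2) (hcard : Fintype.card X = 2 * p) {t : G} (ht : OrdP t p X) (x : X) :
    t • x ≠ x := by
  obtain ⟨ht1, y, hy⟩ := ht
  obtain ⟨s, hs⟩ := (surj_moved hc hc2 hfree h2 hcard ht1 hy).2 x
  have h3 : ∀ k : ℕ, t • t ^ k • y ≠ t ^ k • y := by
    intro k h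
    rw [← mul_smul, (Commute.refl t).pow_right k |>.eq, mul_smul] at h
    exact hy (MulAction.injective _ h)
  rcases s with k | k
  · rw [← hs]; exact h3 _
  · rw [← hs]
    simp only [Sum.elim_inr]
    intro h
    rw [← mul_smul t c, ← hc, mul_smul] at h
    exact h3 _ (MulAction.injective _ h)

lemma sum_even (h2 : p ≠ 2) (hcard : Fintype.card X = 2 * p) {t : G} (ht : OrdP t p X) (x0 : X)
    (f : X → ℚ) (hf : ∀ x, f (c • x) = f x) :
    ∑ x, f x = 2 * ∑ k : ZMod p, f (t ^ k.val • x0) := by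
  have hb := surj_moved hc hc2 hfree h2 hcard ht.1 (moved hc hc2 hfree h2 hcard ht x0)
  rw [← Equiv.sum_comp (Equiv.ofBijective _ hb) f, Fintype.sum_sum_type]
  simp only [Equiv.ofBijective_apply, Sum.elim_inl, Sum.elim_inr, hf]
  rw [two_mul]

lemma exists_k (h2 : p ≠ 2) (hcard : Fintype.card X = 2 * p) {t : G} (ht : OrdP t p X) (x y : X) :
    ∃ k : ZMod p, y = t ^ k.val • x ∨ y = c • t ^ k.val • x := by
  obtain ⟨s, hs⟩ := (surj_moved hc hc2 hfree h2 hcard ht.1 (moved hc hc2 hfree h2 hcard ht x)).2 y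
  rcases s with k | k
  · exact ⟨k, Or.inl hs.symm⟩
  · exact ⟨k, Or.inr hs.symm⟩

end

/-- a transitive subgroup contains an element which acts with order `p` -/
lemma exists_t (H : Subgroup G) (x0 : X) (hH : ∀ y : X, ∃ h ∈ H, h • x0 = y)
    (hcard : Fintype.card X = 2 * p) : ∃ t ∈ H, OrdP t p X := by
  set R : Subgroup (Equiv.Perm X) := H.map (MulAction.toPermHom G X) with hR
  have h1 : Nat.card R = Nat.card (MulAction.orbit R x0) * Nat.card (MulAction.stabilizer R x0) := by
    rw [Nat.card_eq_fintype_card, Nat.card_eq_fintype_card, Nat.card_eq_fintype_card]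
    exact (MulAction.card_orbit_mul_card_stabilizer_eq_card_group R x0).symm
  have h2 : MulAction.orbit R x0 = Set.univ := by
    rw [Set.eq_univ_iff_forall]
    intro y
    obtain ⟨h, hh, rfl⟩ := hH y
    exact ⟨⟨MulAction.toPermHom G X h, Subgroup.mem_map_of_mem _ hh⟩, rfl⟩
  have h3 : p ∣ Nat.card R := by
    rw [h1, h2, Nat.card_coe_set_eq, Set.ncard_univ, Nat.card_eq_fintype_card, hcard]
    exact Dvd.dvd.mul_right (Dvd.intro_left 2 rfl) _
  obtain ⟨r, hr⟩ := exists_prime_orderOf_dvd_card' (G := R) p h3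
  obtain ⟨σ, t, ht, rfl⟩ := r
  refine ⟨t, ht, ?_, ?_⟩
  · intro x
    have h4 := pow_orderOf_eq_one (⟨MulAction.toPermHom G X t, ⟨t, ht, rfl⟩⟩ : R)
    rw [hr] at h4
    have h5 : MulAction.toPermHom G X (t ^ p) = 1 := by
      rw [map_pow]
      exact congrArg (fun s : R => (s : Equiv.Perm X)) h4
    exact congrArg (fun s : Equiv.Perm X => s x) h5
  · by_contra hcon
    push Not at hcon
    have h4 : (⟨MulAction.toPermHom G X t, ⟨t, ht, rfl⟩⟩ : R) = 1 := by
      apply Subtype.ext
      apply Equiv.ext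
      intro x
      exact hcon x
    rw [h4, orderOf_one] at hr
    exact hp.out.one_lt.ne hr

end Pool.Agent.Helper606_PD
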