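import Pool.Agent.Helper606_PD.B

/-!
# Invariant kernels on a set of `2 p` points with a central involution
-/

set_option autoImplicit false
set_option linter.unusedSectionVars false

open scoped Classical

namespace Pool.Agent.Helper606_PD

open Pool.Agent.Helper606_CZ Pool.Agent.Q11.CZ

variable {G : Type} [Group G] [Fintype G] {c : G} {X : Type} [Fintype X] [MulAction G X]
variable {p : ℕ} [hp : Fact p.Prime]

/-- an odd function with values `± 1` whose translates are multiples of it -/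
structure SignFn (c : G) (w : X → ℤ) : Prop where
  val : ∀ x, w x = 1 ∨ w x = -1
  odd : ∀ x, w (c • x) = - w x
  equi : ∀ g : G, ∃ l : ℤ, (l = 1 ∨ l = -1) ∧ ∀ x, w (g • x) = l * w x

lemma pow_mul_p {t : G} (ht : ∀ x : X, t ^ p • x = x) (k : ℕ) (x : X) : t ^ (p * k) • x = x := by
  induction k with
  | zero => simp
  | succ k ih => rw [mul_add, pow_add, mul_smul, mul_one, ht, ih]

lemma pow_mod {t : G} (ht : ∀ x : X, t ^ p • x = x) (k : ℕ) (x : X) : t ^ (k % p) • x = t ^ k • x := by
  conv_rhs => rw [← Nat.mod_add_div k p, pow_add, mul_smul, pow_mul_p ht]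

lemma pw {t : G} (ht : ∀ x : X, t ^ p • x = x) (a b : ZMod p) (x : X) :
    t ^ a.val • t ^ b.val • x = t ^ (a + b).val • x := by
  rw [ZMod.val_add, pow_mod ht, pow_add, mul_smul]

section
variable (hc : ∀ g, c * g = g * c) (hc2 : c * c = 1) (hfree : ∀ x : X, c • x ≠ x)
include hc hc2 hfree

lemma c_ne (h2 : p ≠ 2) (hcard : Fintype.card X = 2 * p) {t : G} (ht : OrdP t p X) (x : X)
    (k l : ℕ) : t ^ l • x ≠ c • t ^ k • x := by
  intro h
  have h1 : t ^ ((p - 1) * k + l) • x = c • x := by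
    rw [pow_add, mul_smul, h, ← mul_smul _ c, ← hc, mul_smul, ← mul_smul (t ^ ((p - 1) * k)),
      ← pow_add]
    have : (p - 1) * k + k = p * k := by
      have := hp.out.one_lt
      obtain ⟨q, rfl⟩ : ∃ q, p = q + 1 := ⟨p - 1, by omega⟩
      simp; ring
    rw [this, pow_mul_p ht.1]
  exact not_c hc hc2 hfree h2 ht.1 (moved hc hc2 hfree h2 hcard ht x) _ h1

theorem dich (h2 : p ≠ 2) (hcard : Fintype.card X = 2 * p) {t : G} (ht : OrdP t p X)
    {N : X → X → ℚ} (hN : Inv G N) (hodd : ∀ x y, N x (c • y) = - N x y) (x0 : X)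
    (h0 : ∑ k : ZMod p, N x0 (t ^ k.val • x0) = 0) (hne : ∃ y, N x0 y ≠ 0) :
    ∃ w : X → ℤ, SignFn c w := by
  set w : X → ℤ := fun x => if ∃ k : ℕ, x = t ^ k • x0 then 1 else -1 with hw
  have w1 : ∀ k : ℕ, w (t ^ k • x0) = 1 := fun k => if_pos ⟨k, rfl⟩
  have w2 : ∀ k : ℕ, w (c • t ^ k • x0) = -1 := by
    intro k
    refine if_neg ?_
    rintro ⟨l, hl⟩
    exact c_ne hc hc2 hfree h2 hcard ht x0 k l hl.symm
  have hval : ∀ x, w x = 1 ∨ w x = -1 := by
    intro x
    simp only [hw]
    split_ifs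
    · exact Or.inl rfl
    · exact Or.inr rfl
  have wodd : ∀ x, w (c • x) = - w x := by
    intro x
    obtain ⟨k, hk | hk⟩ := exists_k hc hc2 hfree h2 hcard ht x0 x
    · rw [hk, w1, w2]
    · rw [hk, ccs hc2, w1, w2]; norm_num
  have wt : ∀ (m : ℕ) (x : X), w (t ^ m • x) = w x := by
    intro m x
    obtain ⟨k, hk | hk⟩ := exists_k hc hc2 hfree h2 hcard ht x0 x
    · rw [hk, ← mul_smul, ← pow_add, w1, w1]
    · rw [hk, ← mul_smul (t ^ m) c, ← hc, mul_smul, ← mul_smul (t ^ m), ← pow_add, w2, w2]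
  have hoddl : ∀ x y, N (c • x) y = - N x y := by
    intro x y
    have := hN c x (c • y)
    rw [ccs hc2] at this
    rw [this, hodd]
  have nw0 : ∑ y, N x0 y * (w y : ℚ) = 0 := by
    rw [sum_even hc hc2 hfree h2 hcard ht x0 (fun y => N x0 y * (w y : ℚ))]
    · simp only [w1, Int.cast_one, mul_one]
      rw [h0, mul_zero]
    · intro y
      simp only [hodd, wodd]
      push_cast
      ring
  have nwg : ∀ (g : G) (x : X), ∑ y, N (g • x) y * (w y : ℚ) = ∑ y, N x y * (w (g • y) : ℚ) := by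
    intro g x
    rw [← Equiv.sum_comp (MulAction.toPerm g) (fun y => N (g • x) y * (w y : ℚ))]
    refine Finset.sum_congr rfl fun y _ => ?_
    simp only [MulAction.toPerm_apply]
    rw [hN]
  have nw : ∀ x, ∑ y, N x y * (w y : ℚ) = 0 := by
    intro x
    obtain ⟨k, hk | hk⟩ := exists_k hc hc2 hfree h2 hcard ht x0 x
    · rw [hk, nwg]
      simp only [wt]
      exact nw0
    · rw [hk]
      simp only [hoddl, neg_mul, Finset.sum_neg_distrib]
      rw [nwg]
      simp only [wt]
      rw [nw0, neg_zero]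
  refine ⟨w, hval, wodd, fun g => ?_⟩
  have hkey : ∀ i : ZMod p, ∑ j : ZMod p, N x0 (t ^ (j - i).val • x0) * (w (g • t ^ j.val • x0) : ℚ) = 0 := by
    intro i
    have h3 : ∑ y, N (t ^ i.val • x0) y * (w (g • y) : ℚ) = 0 := by
      rw [← nwg]
      exact nw _
    rw [sum_even hc hc2 hfree h2 hcard ht x0 (fun y => N (t ^ i.val • x0) y * (w (g • y) : ℚ))] at h3
    · have h4 := (mul_eq_zero.mp h3).resolve_left (by norm_num)
      rw [← h4]
      refine Finset.sum_congr rfl fun j _ => ?_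
      congr 1
      rw [← hN (t ^ i.val) x0, pw ht.1, add_sub_cancel]
    · intro y
      simp only [hodd]
      rw [← mul_smul g c, ← hc, mul_smul, wodd]
      push_cast
      ring
  obtain ⟨q, hq⟩ := const_of_conv (fun k : ZMod p => N x0 (t ^ k.val • x0))
    (fun j => (w (g • t ^ j.val • x0) : ℚ)) h0 (by
      obtain ⟨y, hy⟩ := hne
      obtain ⟨k, hk | hk⟩ := exists_k hc hc2 hfree h2 hcard ht x0 y
      · exact ⟨k, by rw [hk] at hy; exact hy⟩
      · refine ⟨k, fun h => hy ?_⟩
        rw [hk, hodd, h, neg_zero]) hkey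
  have hq' : ∀ k : ZMod p, w (g • t ^ k.val • x0) = w (g • x0) := by
    intro k
    have h5 : (w (g • t ^ k.val • x0) : ℚ) = q := hq k
    have h6 : (w (g • t ^ (0 : ZMod p).val • x0) : ℚ) = q := hq 0
    rw [ZMod.val_zero, pow_zero, one_smul, ← h5] at h6
    exact_mod_cast h6.symm
  refine ⟨w (g • x0), hval _, fun x => ?_⟩
  obtain ⟨k, hk | hk⟩ := exists_k hc hc2 hfree h2 hcard ht x0 x
  · rw [hk, hq', w1, mul_one]
  · rw [hk, ← mul_smul g c, ← hc, mul_smul, wodd, hq', w2]; ring

/-- without a sign function all the functions are invariant -/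
theorem no_sign (h2 : p ≠ 2) (hcard : Fintype.card X = 2 * p)
    (htr : MulAction.IsPretransitive G X) (hno : ¬ ∃ w : X → ℤ, SignFn c w) (x y : X) :
    (fun g => (Dd c x y g : ℚ)) ∈ VZ G := by
  obtain ⟨t, -, ht⟩ := exists_t (p := p) (⊤ : Subgroup G) x (fun y => by
    obtain ⟨g, hg⟩ := MulAction.exists_smul_eq G x y
    exact ⟨g, Subgroup.mem_top g, hg⟩) hcard
  set M : X → X → ℚ := fun u v => ∑ η : G, (io c (η • x) u : ℚ) * (io c (η • y) v : ℚ) with hM
  have hMinv : Inv G M := by
    intro g u v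
    simp only [hM]
    refine Fintype.sum_equiv (Equiv.mulLeft g⁻¹) _ _ fun η => ?_
    simp only [Equiv.coe_mulLeft]
    have e1 := io_inv (X := X) hc g ((g⁻¹ * η) • x) u
    have e2 := io_inv (X := X) hc g ((g⁻¹ * η) • y) v
    rw [← mul_smul, mul_inv_cancel_left] at e1 e2
    rw [e1, e2]
  have hModd : ∀ u v, M u (c • v) = - M u v := by
    intro u v
    simp only [hM]
    rw [← Finset.sum_neg_distrib]
    refine Finset.sum_congr rfl fun η _ => ?_
    rw [io_c hc2]
    push_cast
    ring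
  set a : ℚ := ∑ k : ZMod p, M x (t ^ k.val • x) with ha
  set N : X → X → ℚ := fun u v => M u v - a * (io c u v : ℚ) with hNdef
  have hNinv : Inv G N := by
    intro g u v
    simp only [hNdef]
    rw [hMinv g u v, io_inv hc g u v]
  have hNodd : ∀ u v, N u (c • v) = - N u v := by
    intro u v
    simp only [hNdef]
    rw [hModd, io_c hc2]
    push_cast
    ring
  have hio : ∑ k : ZMod p, (io c x (t ^ k.val • x) : ℚ) = 1 := by
    rw [Finset.sum_eq_single 0]
    · rw [ZMod.val_zero, pow_zero, one_smul, io_self hfree]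
      norm_num
    · intro k _ hk
      have e1 : t ^ k.val • x ≠ x := by
        rw [ne_eq, per ht.1 (moved hc hc2 hfree h2 hcard ht x)]
        intro hd
        apply hk
        have := Nat.eq_zero_of_dvd_of_lt hd (ZMod.val_lt k)
        exact (ZMod.val_eq_zero k).mp this
      have e2 : t ^ k.val • x ≠ c • x := not_c hc hc2 hfree h2 ht.1 (moved hc hc2 hfree h2 hcard ht x) _
      unfold io
      rw [if_neg e1, if_neg e2]
      norm_num
    · intro h; exact absurd (Finset.mem_univ _) h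
  have hN0 : ∑ k : ZMod p, N x (t ^ k.val • x) = 0 := by
    simp only [hNdef]
    rw [Finset.sum_sub_distrib, ← Finset.mul_sum, hio, ← ha, mul_one, sub_self]
  have hz : ∀ v, N x v = 0 := by
    intro v
    by_contra hv
    exact hno (dich hc hc2 hfree h2 hcard ht hNinv hNodd x hN0 ⟨v, hv⟩)
  have hMa : ∀ u v, M u v = a * (io c u v : ℚ) := by
    intro u v
    obtain ⟨g, rfl⟩ := MulAction.exists_smul_eq G x u
    have h3 := hz (g⁻¹ • v)
    have h4 := hNinv g x (g⁻¹ • v)
    rw [h3, smul_inv_smul] at h4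
    simp only [hNdef] at h4
    linarith
  have hdd : ∀ g, 2 * (Dd c x y g : ℚ) = a * ((tr (io c : X → X → ℤ) g : ℤ) : ℚ) := by
    intro g
    have h5 : ∑ u, M u (g • u) = a * ((tr (io c : X → X → ℤ) g : ℤ) : ℚ) := by
      simp only [hMa]
      rw [← Finset.mul_sum]
      unfold tr
      push_cast
      rfl
    rw [← h5]
    simp only [hM]
    rw [Finset.sum_comm]
    unfold Dd
    push_cast
    rw [Finset.mul_sum]
    refine Finset.sum_congr rfl fun η _ => ?_
    have h6 := sum_io hc2 (η • x) (fun u => io c (η • y) (g • u)) (by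
      intro u
      rw [← mul_smul g c, ← hc, mul_smul, io_c hc2])
    have h7 := congrArg (fun z : ℤ => (z : ℚ)) h6
    push_cast at h7
    exact h7.symm
  intro g g' hg
  have h8 := hdd g
  have h9 := hdd g'
  rw [tr_io_zpowers (X := X) hc hc2 hg, ← h9] at h8
  simp only
  linarith

end

end Pool.Agent.Helper606_PD
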