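import Pool.Agent.Helper606_PD.C

/-!
# The functions in the presence of a sign function
-/

set_option autoImplicit false
set_option linter.unusedSectionVars false

open scoped Classical

namespace Pool.Agent.Helper606_PD

open Pool.Agent.Helper606_CZ Pool.Agent.Q11.CZ

variable {G : Type} [Group G] [Fintype G] {c : G} {X : Type} [Fintype X] [MulAction G X]
variable {p : ℕ} [hp : Fact p.Prime]

/-- equal up to the involution -/
def Same (c : G) (x y : X) : Prop := y = x ∨ y = c • x

lemma same_refl (x : X) : Same c x x := Or.inl rfl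

section
variable (hc2 : c * c = 1)
include hc2

lemma same_symm {x y : X} (h : Same c x y) : Same c y x := by
  rcases h with rfl | rfl
  · exact Or.inl rfl
  · exact Or.inr (ccs hc2 x).symm

lemma same_trans {x y z : X} (h : Same c x y) (h' : Same c y z) : Same c x z := by
  rcases h with rfl | rfl
  · exact h'
  · rcases h' with rfl | rfl
    · exact Or.inr rfl
    · exact Or.inl (ccs hc2 x)

end

lemma same_smul (hc : ∀ g, c * g = g * c) (g : G) {x y : X} (h : Same c x y) :
    Same c (g • x) (g • y) := by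
  rcases h with rfl | rfl
  · exact Or.inl rfl
  · exact Or.inr (by rw [← mul_smul, ← hc, mul_smul])

/-- the indicator -/
noncomputable def Rr (c : G) (x y : X) : ℤ := if Same c x y then 1 else 0

/-- the number of the `η` with `η y` and `g η x` equal up to the involution -/
noncomputable def Cn (c : G) (x y : X) (g : G) : ℤ := ∑ η : G, Rr c (η • y) (g • η • x)

lemma rr_nonneg (x y : X) : 0 ≤ Rr c x y := by unfold Rr; split_ifs <;> norm_num

section
variable (hc : ∀ g, c * g = g * c) (hc2 : c * c = 1) (hfree : ∀ x : X, c • x ≠ x)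
include hc hc2 hfree

lemma rr_congr {x x' y y' : X} (h : Same c x x') (h' : Same c y y') : Rr c x y = Rr c x' y' := by
  unfold Rr
  congr 1
  apply propext
  constructor
  · intro h1
    exact same_trans hc2 (same_trans hc2 (same_symm hc2 h) h1) h'
  · intro h1
    exact same_trans hc2 (same_trans hc2 h h1) (same_symm hc2 h')

lemma cn_congr {x x' y y' : X} (h : Same c x x') (h' : Same c y y') (g : G) :
    Cn c x y g = Cn c x' y' g := by
  unfold Cn
  refine Finset.sum_congr rfl fun η _ => ?_
  exact rr_congr hc hc2 hfree (same_smul hc η h') (same_smul hc g (same_smul hc η h))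

omit hc hc2 hfree in
lemma cn_smul (k : G) (x y : X) (g : G) : Cn c (k • x) (k • y) g = Cn c x y g := by
  unfold Cn
  refine Fintype.sum_equiv (Equiv.mulRight k) _ _ fun η => ?_
  simp only [Equiv.coe_mulRight, mul_smul]

lemma io_rr {w : X → ℤ} (hw : SignFn c w) (x y : X) : io c x y = w x * w y * Rr c x y := by
  unfold io Rr Same
  have hsq : ∀ x, w x * w x = 1 := by
    intro x
    rcases hw.val x with h | h <;> rw [h] <;> norm_num
  by_cases h1 : y = x
  · subst h1
    rw [if_pos rfl, if_neg (hfree y).symm, if_pos (Or.inl rfl), hsq]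
    norm_num
  · by_cases h2 : y = c • x
    · subst h2
      rw [if_neg h1, if_pos rfl, if_pos (Or.inr rfl), hw.odd]
      have := hsq x
      linarith
    · rw [if_neg h1, if_neg h2, if_neg (by tauto)]
      norm_num

lemma dd_cn {w : X → ℤ} (hw : SignFn c w) {g : G} {l : ℤ} (hl : ∀ x, w (g • x) = l * w x)
    (x y : X) : Dd c x y g = l * (w x * w y) * Cn c x y g := by
  unfold Dd Cn
  rw [Finset.mul_sum]
  refine Finset.sum_congr rfl fun η _ => ?_
  rw [io_rr hc hc2 hfree hw, hl]
  obtain ⟨m, hm, hm'⟩ := hw.equi η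
  rw [hm', hm']
  rcases hm with rfl | rfl <;> ring

lemma sum_rr (y : X) : ∑ x, Rr c x y = 2 := by
  unfold Rr
  rw [Finset.sum_boole]
  have : (Finset.univ.filter fun x : X => Same c x y) = {y, c • y} := by
    ext x
    simp only [Finset.mem_filter, Finset.mem_univ, true_and, Finset.mem_insert,
      Finset.mem_singleton]
    constructor
    · intro h
      exact same_symm hc2 h
    · intro h
      exact same_symm hc2 h
  rw [this, Finset.card_pair (hfree y).symm]
  norm_num

lemma sum_rr' (x : X) : ∑ y, Rr c x y = 2 := by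
  rw [← sum_rr hc hc2 hfree x]
  refine Finset.sum_congr rfl fun y _ => ?_
  unfold Rr
  congr 1
  exact propext ⟨same_symm hc2, same_symm hc2⟩

lemma sum_cn (x : X) (g : G) : ∑ y, Cn c x y g = 2 * Fintype.card G := by
  unfold Cn
  rw [Finset.sum_comm]
  have h : ∀ η : G, ∑ y, Rr c (η • y) (g • η • x) = 2 := by
    intro η
    rw [← sum_rr hc hc2 hfree (g • η • x)]
    exact Equiv.sum_comp (MulAction.toPerm η) (fun y => Rr c y (g • η • x))
  rw [Finset.sum_congr rfl fun η _ => h η, Finset.sum_const, Finset.card_univ, nsmul_eq_mul]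
  ring

lemma sum_cn' (x : X) (g : G) : ∑ y, Cn c y x g = 2 * Fintype.card G := by
  unfold Cn
  rw [Finset.sum_comm]
  have h : ∀ η : G, ∑ y, Rr c (η • x) (g • η • y) = 2 := by
    intro η
    rw [← sum_rr' hc hc2 hfree (η • x)]
    simp only [← mul_smul]
    exact Equiv.sum_comp (MulAction.toPerm (g * η)) (fun y => Rr c (η • x) y)
  rw [Finset.sum_congr rfl fun η _ => h η, Finset.sum_const, Finset.card_univ, nsmul_eq_mul]
  ring

/-- evaluation of a kernel which is constant outside the diagonal -/
lemma const_off' (F : X → ℤ) (x y : X) (hF : ∀ y', ¬ Same c x y' → F y' = F y)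
    (hF' : F (c • x) = F x) (hxy : ¬ Same c x y) :
    ∑ y', F y' = Fintype.card X * F y + 2 * (F x - F y) := by
  have h1 : ∀ y', F y' = F y + Rr c x y' * (F x - F y) := by
    intro y'
    unfold Rr
    by_cases h : Same c x y'
    · rw [if_pos h]
      rcases h with rfl | rfl
      · ring
      · rw [hF']; ring
    · rw [if_neg h, hF y' h]; ring
  rw [Finset.sum_congr rfl fun y' _ => h1 y', Finset.sum_add_distrib, Finset.sum_const,
    Finset.card_univ, nsmul_eq_mul, ← Finset.sum_mul, sum_rr' hc hc2 hfree]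

/-- the elements with positive sign -/
def Ker {w : X → ℤ} (_ : SignFn c w) : Subgroup G where
  carrier := {g | ∀ x, w (g • x) = w x}
  mul_mem' := by
    intro a b ha hb x
    rw [mul_smul, ha, hb]
  one_mem' := fun x => by rw [one_smul]
  inv_mem' := by
    intro a ha x
    have := ha (a⁻¹ • x)
    rw [smul_inv_smul] at this
    exact this.symm

lemma sign_zpowers {w : X → ℤ} (hw : SignFn c w) {g g' : G}
    (h : Subgroup.zpowers g = Subgroup.zpowers g') (x : X) : w (g • x) = w (g' • x) := by
  obtain ⟨l, hl, hl'⟩ := hw.equi g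
  obtain ⟨m, hm, hm'⟩ := hw.equi g'
  have key : ∀ {g g' : G}, Subgroup.zpowers g = Subgroup.zpowers g' → (∀ x, w (g • x) = w x) →
      ∀ x, w (g' • x) = w x := by
    intro g g' h hg
    have h1 : g ∈ Ker hw := hg
    have h2 : g' ∈ Subgroup.zpowers g := by rw [h]; exact Subgroup.mem_zpowers g'
    exact (Subgroup.zpowers_le.mpr h1) h2
  rw [hl', hm']
  rcases hl with rfl | rfl
  · have h3 := key h (fun x => by rw [hl', one_mul]) x
    rw [hm'] at h3
    rw [h3, one_mul]
  · rcases hm with rfl | rfl
    · have h3 := key h.symm (fun x => by rw [hm', one_mul]) x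
      rw [hl'] at h3
      rw [h3, one_mul]
    · rfl

/-- the two-transitive case -/
theorem two_VZ (h3 : 3 ≤ p) (hcard : Fintype.card X = 2 * p)
    (htr : MulAction.IsPretransitive G X) {w : X → ℤ} (hw : SignFn c w)
    (H : ∀ x y x' y' : X, ¬ Same c x y → ¬ Same c x' y' →
      ∃ g : G, Same c (g • x) x' ∧ Same c (g • y) y') (x y : X) :
    (fun g => (Dd c x y g : ℚ)) ∈ VZ G := by
  by_cases hxy : Same c x y
  · rcases hxy with rfl | rfl
    · exact self_VZ hc hc2 htr _
    · have h1 := (VZ G).neg_mem (self_VZ (c := c) hc hc2 htr x)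
      have e : (fun g => (Dd c x (c • x) g : ℚ)) = -(fun g => (Dd c x x g : ℚ)) := by
        funext g
        rw [Pi.neg_apply, dd_c hc hc2]
        push_cast; ring
      rw [e]
      exact h1
  · intro g g' hg
    have key : ∀ g : G, (2 * (p : ℚ) - 2) * (Dd c x y g : ℚ) =
        (w x * w y : ℤ) * (2 * Fintype.card G * ((w (g • x) * w x : ℤ) : ℚ) - 2 * (Dd c x x g : ℚ)) := by
      intro g
      obtain ⟨l, hl, hl'⟩ := hw.equi g
      have e1 := dd_cn hc hc2 hfree hw hl' x y
      have e2 := dd_cn hc hc2 hfree hw hl' x x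
      have e3 := const_off' hc hc2 hfree (fun y' => Cn c x y' g) x y (by
        intro y' hy'
        obtain ⟨k, hk1, hk2⟩ := H x y' x y hy' hxy
        rw [← cn_smul k x y' g]
        exact cn_congr hc hc2 hfree hk1 hk2 g)
        (cn_congr hc hc2 hfree (same_refl x) (same_symm hc2 (Or.inr rfl)) g) hxy
      rw [sum_cn hc hc2 hfree, hcard] at e3
      rw [e1, e2, hl']
      have e4 : ((2 * Fintype.card G : ℤ) : ℚ) = ((((2 * p : ℕ) : ℤ) * Cn c x y g +
        2 * (Cn c x x g - Cn c x y g) : ℤ) : ℚ) := by
        rw [← e3]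
      push_cast at e4 ⊢
      rcases hw.val x with hx | hx <;> rcases hw.val y with hy | hy <;> rw [hx, hy] <;> push_cast <;>
        first
        | linear_combination (l : ℚ) * e4
        | linear_combination -(l : ℚ) * e4
    have k1 := key g
    have k2 := key g'
    have k3 : (Dd c x x g : ℚ) = (Dd c x x g' : ℚ) := self_VZ (c := c) hc hc2 htr x g g' hg
    rw [sign_zpowers hc hc2 hfree hw hg x, k3, ← k2] at k1
    have k4 : (2 * (p : ℚ) - 2) ≠ 0 := by
      have : (3 : ℚ) ≤ p := by exact_mod_cast h3
      intro h; linarith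
    exact mul_left_cancel₀ k4 k1

/-- the case of one orbit on the pairs -/
theorem two_VZ' (h3 : 3 ≤ p) (hcard : Fintype.card X = 2 * p)
    (htr : MulAction.IsPretransitive G X) {w : X → ℤ} (hw : SignFn c w)
    (H : ∀ x y x' y' : X, ¬ Same c x y → ¬ Same c x' y' →
      ∃ g : G, (Same c (g • x) x' ∧ Same c (g • y) y') ∨ (Same c (g • x) y' ∧ Same c (g • y) x'))
    (x y : X) :
    (fun g => (Dd c x y g : ℚ) + (Dd c y x g : ℚ)) ∈ VZ G := by
  by_cases hxy : Same c x y
  · rcases hxy with rfl | rfl
    · exact (VZ G).add_mem (self_VZ hc hc2 htr _) (self_VZ hc hc2 htr _)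
    · have h1 := (VZ G).neg_mem (self_VZ (c := c) hc hc2 htr x)
      have e : (fun g => (Dd c x (c • x) g : ℚ) + (Dd c (c • x) x g : ℚ)) =
          -(fun g => (Dd c x x g : ℚ)) + -(fun g => (Dd c x x g : ℚ)) := by
        funext g
        rw [Pi.add_apply, Pi.neg_apply, dd_c hc hc2, dd_c' hc hc2]
        push_cast; ring
      rw [e]
      exact (VZ G).add_mem h1 h1
  · intro g g' hg
    have key : ∀ g : G, (2 * (p : ℚ) - 2) * ((Dd c x y g : ℚ) + (Dd c y x g : ℚ)) =
        (w x * w y : ℤ) * (4 * Fintype.card G * ((w (g • x) * w x : ℤ) : ℚ) - 4 * (Dd c x x g : ℚ)) := by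
      intro g
      obtain ⟨l, hl, hl'⟩ := hw.equi g
      have e1 := dd_cn hc hc2 hfree hw hl' x y
      have e1' := dd_cn hc hc2 hfree hw hl' y x
      have e2 := dd_cn hc hc2 hfree hw hl' x x
      have cx : Same c (c • x) x := same_symm hc2 (Or.inr rfl)
      have e3 := const_off' hc hc2 hfree (fun y' => Cn c x y' g + Cn c y' x g) x y (by
        intro y' hy'
        obtain ⟨k, ⟨hk1, hk2⟩ | ⟨hk1, hk2⟩⟩ := H x y' x y hy' hxy
        · rw [← cn_smul k x y' g, ← cn_smul k y' x g, cn_congr hc hc2 hfree hk1 hk2 g,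
            cn_congr hc hc2 hfree hk2 hk1 g]
        · rw [← cn_smul k x y' g, ← cn_smul k y' x g, cn_congr hc hc2 hfree hk1 hk2 g,
            cn_congr hc hc2 hfree hk2 hk1 g, add_comm])
        (by rw [cn_congr hc hc2 hfree (same_refl x) cx g, cn_congr hc hc2 hfree cx (same_refl x) g]) hxy
      rw [Finset.sum_add_distrib, sum_cn hc hc2 hfree, sum_cn' hc hc2 hfree, hcard] at e3
      rw [e1, e1', e2, hl']
      have e4 := congrArg (fun z : ℤ => (z : ℚ)) e3
      push_cast at e4 ⊢
      rcases hw.val x with hx | hx <;> rcases hw.val y with hy | hy <;> rw [hx, hy] <;> push_cast <;>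
        first
        | linear_combination (l : ℚ) * e4
        | linear_combination -(l : ℚ) * e4
    have k1 := key g
    have k2 := key g'
    have k3 : (Dd c x x g : ℚ) = (Dd c x x g' : ℚ) := self_VZ (c := c) hc hc2 htr x g g' hg
    rw [sign_zpowers hc hc2 hfree hw hg x, k3, ← k2] at k1
    have k4 : (2 * (p : ℚ) - 2) ≠ 0 := by
      have : (3 : ℚ) ≤ p := by exact_mod_cast h3
      intro h; linarith
    exact mul_left_cancel₀ k4 k1

end

end Pool.Agent.Helper606_PD
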