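import Pool.Agent.Helper606_PD.D

/-!
# The two cases with a sign function, and the converse
-/

set_option autoImplicit false
set_option linter.unusedSectionVars false

open scoped Classical commutatorElement

namespace Pool.Agent.Helper606_PD

open Pool.Agent.Helper606_CZ Pool.Agent.Q11.CZ

variable {G : Type} [Group G] [Fintype G] {c : G} {X : Type} [Fintype X] [MulAction G X]
variable {p : ℕ} [hp : Fact p.Prime]

section
variable (hc : ∀ g, c * g = g * c) (hc2 : c * c = 1) (hfree : ∀ x : X, c • x ≠ x)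
include hc hc2 hfree

/-- the case where the elements which fix one class fix all of them -/
theorem gal_VT (h2 : p ≠ 2) (hcard : Fintype.card X = 2 * p)
    (htr : MulAction.IsPretransitive G X) {w : X → ℤ} (hw : SignFn c w)
    (hG : ∀ (g : G) (x y : X), Same c (g • x) x → Same c (g • y) y) (x y : X) :
    (fun g => (Dd c x y g : ℚ)) ∈ VT G := by
  obtain ⟨t, -, ht⟩ := exists_t (p := p) (⊤ : Subgroup G) x (fun y => by
    obtain ⟨g, hg⟩ := MulAction.exists_smul_eq G x y
    exact ⟨g, Subgroup.mem_top g, hg⟩) hcard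
  have h1 : ∀ g : G, ∃ k : ℕ, ∀ y : X, Same c (g • y) (t ^ k • y) := by
    intro g
    obtain ⟨k, hk⟩ := exists_k hc hc2 hfree h2 hcard ht x (g • x)
    have h3 : Same c (t ^ k.val • x) (g • x) := hk
    have h4 : Same c (((t ^ k.val)⁻¹ * g) • x) x := by
      have h5 := same_smul hc (t ^ k.val)⁻¹ h3
      rw [inv_smul_smul, ← mul_smul] at h5
      exact same_symm hc2 h5
    refine ⟨k.val, fun y => ?_⟩
    have h5 := same_smul hc (t ^ k.val) (hG _ x y h4)
    rwa [mul_smul, smul_inv_smul] at h5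
  have h6 : ∀ (g h : G) (y : X), g • h • y = h • g • y := by
    intro g h y
    obtain ⟨k, hk⟩ := h1 g
    obtain ⟨l, hl⟩ := h1 h
    have a1 : Same c (g • h • y) (t ^ (k + l) • y) := by
      rw [pow_add, mul_smul]
      exact same_trans hc2 (hk (h • y)) (same_smul hc _ (hl y))
    have a2 : Same c (h • g • y) (t ^ (k + l) • y) := by
      rw [add_comm, pow_add, mul_smul]
      exact same_trans hc2 (hl (g • y)) (same_smul hc _ (hk y))
    rcases same_trans hc2 a1 (same_symm hc2 a2) with a3 | a3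
    · exact a3.symm
    · exfalso
      obtain ⟨l1, m1, e1⟩ := hw.equi g
      obtain ⟨l2, m2, e2⟩ := hw.equi h
      have a4 := congrArg w a3
      rw [hw.odd, e2, e1, e1, e2] at a4
      rcases hw.val y with hy | hy <;> rcases m1 with rfl | rfl <;> rcases m2 with rfl | rfl <;>
        rw [hy] at a4 <;> norm_num at a4
  have h7 : ∀ z ∈ commutator G, ∀ y : X, z • y = y := by
    have h8 : commutator G ≤ (MulAction.toPermHom G X).ker := by
      rw [commutator_def, Subgroup.commutator_le]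
      intro a _ b _
      rw [MonoidHom.mem_ker]
      apply Equiv.ext
      intro y
      change ⁅a, b⁆ • y = y
      rw [commutatorElement_def, mul_smul, mul_smul, mul_smul, h6 a b, smul_inv_smul, smul_inv_smul]
    intro z hz y
    have h9 := h8 hz
    rw [MonoidHom.mem_ker] at h9
    exact congrArg (fun s : Equiv.Perm X => s y) h9
  refine mem_VT.mpr (twist_of_abInv fun g z hz => ?_)
  have h10 : Dd c x y (g * z) = Dd c x y g := by
    unfold Dd
    refine Finset.sum_congr rfl fun η _ => ?_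
    rw [mul_smul g z, h7 z hz]
  simp only [h10]

/-- there is an element of the commutator subgroup which moves a class -/
lemma exists_n (htr : MulAction.IsPretransitive G X) {g0 : G} {x1 y1 : X}
    (hx : Same c (g0 • x1) x1) (hy : ¬ Same c (g0 • y1) y1) :
    ∃ n ∈ commutator G, ¬ Same c (n • y1) y1 := by
  obtain ⟨h, rfl⟩ := MulAction.exists_smul_eq G x1 y1
  refine ⟨⁅g0, h⁆, Subgroup.commutator_mem_commutator (Subgroup.mem_top _) (Subgroup.mem_top _), ?_⟩
  intro hcon
  apply hy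
  have e : ⁅g0, h⁆ • h • g0 • x1 = g0 • h • x1 := by
    rw [commutatorElement_def]
    simp only [← mul_smul]
    congr 1
    group
  have h1 : Same c (⁅g0, h⁆ • h • g0 • x1) (⁅g0, h⁆ • h • x1) :=
    same_smul hc _ (same_smul hc _ hx)
  rw [e] at h1
  exact same_trans hc2 h1 hcon

/-- a normal subgroup which moves a class is transitive on the classes -/
lemma trans_n (h2 : p ≠ 2) (hcard : Fintype.card X = 2 * p) (htr : MulAction.IsPretransitive G X)
    (N : Subgroup G) [hN : N.Normal] {n : G} (hn : n ∈ N) {y1 : X} (hy : ¬ Same c (n • y1) y1) (y : X) :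
    ∃ m ∈ N, Same c (m • y1) y := by
  obtain ⟨t, -, ht⟩ := exists_t (p := p) (⊤ : Subgroup G) y1 (fun y => by
    obtain ⟨g, hg⟩ := MulAction.exists_smul_eq G y1 y
    exact ⟨g, Subgroup.mem_top g, hg⟩) hcard
  obtain ⟨k, hk⟩ := exists_k hc hc2 hfree h2 hcard ht y1 (n • y1)
  have hk' : Same c (t ^ k.val • y1) (n • y1) := hk
  have hk0 : k ≠ 0 := by
    rintro rfl
    rw [ZMod.val_zero, pow_zero, one_smul] at hk'
    exact hy (same_symm hc2 hk')
  have h1 : ∀ i : ℕ, ∃ m ∈ N, Same c (m • y1) (t ^ (k.val * i) • y1) := by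
    intro i
    induction i with
    | zero => exact ⟨1, N.one_mem, by rw [one_smul, mul_zero, pow_zero, one_smul]; exact same_refl _⟩
    | succ i ih =>
      obtain ⟨m, hm, hm'⟩ := ih
      refine ⟨t ^ k.val * m * (t ^ k.val)⁻¹ * n, N.mul_mem (hN.conj_mem m hm _) hn, ?_⟩
      have e1 : Same c ((t ^ k.val * m * (t ^ k.val)⁻¹ * n) • y1) (t ^ k.val • m • y1) := by
        have e2 := same_smul hc (t ^ k.val * m * (t ^ k.val)⁻¹) (same_symm hc2 hk')
        have e3 : (t ^ k.val * m * (t ^ k.val)⁻¹) • t ^ k.val • y1 = t ^ k.val • m • y1 := by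
          simp only [← mul_smul]
          congr 1
          group
        rw [e3, ← mul_smul] at e2
        exact e2
      have e4 := same_smul hc (t ^ k.val) hm'
      rw [← mul_smul (t ^ k.val) (t ^ (k.val * i)), ← pow_add,
        show k.val + k.val * i = k.val * (i + 1) by ring] at e4
      exact same_trans hc2 e1 e4
  obtain ⟨l, hl⟩ := exists_k hc hc2 hfree h2 hcard ht y1 y
  have hl' : Same c (t ^ l.val • y1) y := hl
  obtain ⟨m, hm, hm'⟩ := h1 (l / k).val
  refine ⟨m, hm, same_trans hc2 hm' ?_⟩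
  have e : t ^ (k.val * (l / k).val) • y1 = t ^ l.val • y1 := by
    rw [← pow_mod ht.1 (k.val * (l / k).val), ← ZMod.val_mul, mul_div_cancel₀ l hk0]
  rw [e]
  exact hl'

/-- the elements of a subgroup and their products with the involution -/
def Np (hc : ∀ g, c * g = g * c) (hc2 : c * c = 1) (N : Subgroup G) : Subgroup G where
  carrier := {g | g ∈ N ∨ c * g ∈ N}
  mul_mem' := by
    rintro a b (ha | ha) (hb | hb)
    · exact Or.inl (N.mul_mem ha hb)
    · refine Or.inr ?_
      have := N.mul_mem ha hb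
      rwa [← mul_assoc, ← hc, mul_assoc] at this
    · refine Or.inr ?_
      rw [← mul_assoc]
      exact N.mul_mem ha hb
    · refine Or.inl ?_
      have := N.mul_mem ha hb
      have e : c * a * (c * b) = a * b := by
        rw [hc a, mul_assoc, ← mul_assoc c c, hc2, one_mul]
      rwa [e] at this
  one_mem' := Or.inl N.one_mem
  inv_mem' := by
    rintro a (ha | ha)
    · exact Or.inl (N.inv_mem ha)
    · refine Or.inr ?_
      have := N.inv_mem ha
      have e : (c * a)⁻¹ = c * a⁻¹ := by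
        rw [mul_inv_rev, inv_eq_of_mul_eq_one_right hc2, hc]
      rwa [e] at this

/-- an element of order `p` of the commutator subgroup -/
lemma exists_s (h2 : p ≠ 2) (hcard : Fintype.card X = 2 * p) (htr : MulAction.IsPretransitive G X)
    {w : X → ℤ} (hw : SignFn c w) {g0 : G} {x1 y1 : X}
    (hx : Same c (g0 • x1) x1) (hy : ¬ Same c (g0 • y1) y1) :
    ∃ s ∈ commutator G, OrdP s p X ∧ ∀ x : X, w (s • x) = w x := by
  obtain ⟨n, hn, hn'⟩ := exists_n hc hc2 hfree htr hx hy
  obtain ⟨t, htN, ht⟩ := exists_t (p := p) (Np hc hc2 (commutator G)) y1 (fun y => by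
    obtain ⟨m, hm, hm'⟩ := trans_n hc hc2 hfree h2 hcard htr (commutator G) hn hn' y
    rcases hm' with hm' | hm'
    · exact ⟨m, Or.inl hm, hm'.symm⟩
    · refine ⟨c * m, Or.inr ?_, by rw [mul_smul, hm']⟩
      rw [← mul_assoc, hc2, one_mul]
      exact hm) hcard
  refine ⟨t ^ 2, ?_, ⟨fun x => ?_, ⟨y1, ?_⟩⟩, fun x => ?_⟩
  · rcases htN with h | h
    · exact Subgroup.pow_mem _ h 2
    · have h3 := Subgroup.pow_mem _ h 2
      have e : (c * t) ^ 2 = t ^ 2 := by
        rw [pow_two, pow_two]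
        calc c * t * (c * t) = c * (t * c) * t := by simp only [mul_assoc]
          _ = c * (c * t) * t := by rw [hc t]
          _ = (c * c) * (t * t) := by simp only [mul_assoc]
          _ = t * t := by rw [hc2, one_mul]
      rwa [e] at h3
  · rw [← pow_mul, mul_comm, pow_mul_p ht.1]
  · rw [ne_eq, per ht.1 (moved hc hc2 hfree h2 hcard ht y1)]
    intro h
    exact h2 ((Nat.prime_dvd_prime_iff_eq hp.out Nat.prime_two).mp h)
  · obtain ⟨l, hl, hl'⟩ := hw.equi t
    rw [pow_two, mul_smul, hl', hl']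
    rcases hl with rfl | rfl <;> ring

/-- the exponents -/
lemma exists_j {s : G} (hs : OrdP s p X) {k : ZMod p} (hk : k ≠ 0) :
    ∃ j : ℕ, j.Coprime (Nat.card G) ∧ ∀ x : X, s ^ j • x = s ^ k.val • x := by
  have hn : NeZero (Nat.card G) := ⟨Nat.card_pos.ne'⟩
  have hd : p ∣ Nat.card G := by
    have h1 : p ∣ orderOf (MulAction.toPermHom G X s) := by
      have h2 : orderOf (MulAction.toPermHom G X s) ∣ p := by
        rw [orderOf_dvd_iff_pow_eq_one, ← map_pow]
        apply Equiv.ext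
        intro x
        exact hs.1 x
      rcases (Nat.dvd_prime hp.out).mp h2 with h3 | h3
      · exfalso
        rw [orderOf_eq_one_iff] at h3
        obtain ⟨x, hx⟩ := hs.2
        exact hx (congrArg (fun s : Equiv.Perm X => s x) h3)
      · rw [h3]
    exact h1.trans ((orderOf_map_dvd _ s).trans (orderOf_dvd_natCard s))
  obtain ⟨u, hu⟩ := ZMod.unitsMap_surjective hd (Units.mk0 k hk)
  refine ⟨(u : ZMod (Nat.card G)).val, ZMod.val_coe_unit_coprime u, fun x => ?_⟩
  have h1 := congrArg (fun v : (ZMod p)ˣ => (v : ZMod p)) hu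
  simp only [Units.val_mk0] at h1
  rw [ZMod.unitsMap_val] at h1
  have h3 : (((u : ZMod (Nat.card G)).val : ℕ) : ZMod p) = k := by
    rw [ZMod.natCast_val]
    exact h1
  rw [← h3, ZMod.val_natCast, pow_mod hs.1]

/-- the relation between a pair and the pair of `x0` and `s x0` -/
def PP (c : G) (s : G) (x0 x y : X) : Prop := ∃ η : G, Same c (η • x) x0 ∧ Same c (η • y) (s • x0)

lemma pp_of (h2 : p ≠ 2) (hcard : Fintype.card X = 2 * p) {s : G} (hs : OrdP s p X) (x0 : X)
    {x y : X} {η : G} (h : Same c (η • y) (s • η • x)) : PP c s x0 x y := by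
  obtain ⟨i, hi⟩ := exists_k hc hc2 hfree h2 hcard hs x0 (η • x)
  have hi' : Same c (s ^ i.val • x0) (η • x) := hi
  have h1 : Same c ((s ^ i.val)⁻¹ • η • x) x0 := by
    have h3 := same_smul hc (s ^ i.val)⁻¹ hi'
    rw [inv_smul_smul] at h3
    exact same_symm hc2 h3
  refine ⟨(s ^ i.val)⁻¹ * η, ?_, ?_⟩
  · rw [mul_smul]; exact h1
  · rw [mul_smul]
    have h3 := same_smul hc (s ^ i.val)⁻¹ h
    have e : (s ^ i.val)⁻¹ • s • η • x = s • (s ^ i.val)⁻¹ • η • x := by
      rw [← mul_smul (s ^ i.val)⁻¹ s, ← mul_smul s (s ^ i.val)⁻¹,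
        ((Commute.refl s).pow_left i.val).inv_left.eq]
    rw [e] at h3
    exact same_trans hc2 h3 (same_smul hc s h1)

lemma glue {s : G} {x0 x y x' y' : X} (h : PP c s x0 x y) (h' : PP c s x0 x' y') :
    ∃ g : G, Same c (g • x) x' ∧ Same c (g • y) y' := by
  obtain ⟨η, h1, h3⟩ := h
  obtain ⟨η', h1', h3'⟩ := h'
  refine ⟨η'⁻¹ * η, ?_, ?_⟩
  · have e1 := same_smul hc η'⁻¹ h1
    have e2 := same_smul hc η'⁻¹ h1'
    rw [inv_smul_smul] at e2
    rw [mul_smul]
    exact same_trans hc2 e1 (same_symm hc2 e2)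
  · have e1 := same_smul hc η'⁻¹ h3
    have e2 := same_smul hc η'⁻¹ h3'
    rw [inv_smul_smul] at e2
    rw [mul_smul]
    exact same_trans hc2 e1 (same_symm hc2 e2)

lemma cn_pos {x y : X} {g η : G} (h : Same c (η • y) (g • η • x)) : 1 ≤ Cn c x y g := by
  unfold Cn
  have h1 : Rr c (η • y) (g • η • x) = 1 := if_pos h
  rw [← h1]
  exact Finset.single_le_sum (f := fun η : G => Rr c (η • y) (g • η • x))
    (fun η _ => rr_nonneg _ _) (Finset.mem_univ η)

lemma of_cn_pos {x y : X} {g : G} (h : 0 < Cn c x y g) : ∃ η : G, Same c (η • y) (g • η • x) := by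
  by_contra hcon
  push Not at hcon
  have h1 : Cn c x y g = 0 := Finset.sum_eq_zero fun η _ => if_neg (hcon η)
  omega

lemma cn_nonneg (x y : X) (g : G) : 0 ≤ Cn c x y g := Finset.sum_nonneg fun _ _ => rr_nonneg _ _

/-- the values at the powers -/
lemma dd_pow {w : X → ℤ} (hw : SignFn c w) {s : G} (hs : ∀ x, w (s • x) = w x) (j : ℕ) (x y : X) :
    Dd c x y (s ^ j) = w x * w y * Cn c x y (s ^ j) := by
  have h1 : ∀ x, w (s ^ j • x) = w x := by
    induction j with
    | zero => intro x; rw [pow_zero, one_smul]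
    | succ j ih => intro x; rw [pow_succ, mul_smul, ih, hs]
  have h3 := dd_cn hc hc2 hfree hw (g := s ^ j) (l := 1) (fun x => by rw [h1, one_mul]) x y
  rw [one_mul] at h3
  exact h3

/-- the converse for the first functions -/
theorem core_one (h2 : p ≠ 2) (hcard : Fintype.card X = 2 * p) {w : X → ℤ} (hw : SignFn c w)
    {s : G} (hs : OrdP s p X) (hsw : ∀ x : X, w (s • x) = w x) (x1 : X)
    (hD : ∀ (j : ℕ), j.Coprime (Nat.card G) → ∀ x y : X, (Dd c x y (s ^ j) : ℚ) = Dd c x y s)
    (x y x' y' : X) (hxy : ¬ Same c x y) (hxy' : ¬ Same c x' y') :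
    ∃ g : G, Same c (g • x) x' ∧ Same c (g • y) y' := by
  have key : ∀ x y : X, ¬ Same c x y → PP c s x1 x y := by
    intro x y h
    obtain ⟨k, hk⟩ := exists_k hc hc2 hfree h2 hcard hs x y
    have hk' : Same c (s ^ k.val • x) y := hk
    have hk0 : k ≠ 0 := by
      rintro rfl
      rw [ZMod.val_zero, pow_zero, one_smul] at hk'
      exact h hk'
    obtain ⟨j, hj, hj'⟩ := exists_j hc hc2 hfree hs hk0
    have h3 := hD j hj x y
    have h5 : Dd c x y (s ^ j) = Dd c x y (s ^ 1) := by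
      rw [pow_one]; exact_mod_cast h3
    rw [dd_pow hc hc2 hfree hw hsw, dd_pow hc hc2 hfree hw hsw] at h5
    have h6 : 1 ≤ Cn c x y (s ^ j) := by
      apply cn_pos hc hc2 hfree (η := 1)
      rw [one_smul, one_smul, hj']
      exact same_symm hc2 hk'
    have h7 : Cn c x y (s ^ j) = Cn c x y (s ^ 1) := by
      have h8 : w x * w y ≠ 0 := by
        rcases hw.val x with h | h <;> rcases hw.val y with h' | h' <;> rw [h, h'] <;> norm_num
      exact mul_left_cancel₀ h8 h5
    obtain ⟨η, hη⟩ := of_cn_pos hc hc2 hfree (x := x) (y := y) (g := s ^ 1) (by omega)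
    rw [pow_one] at hη
    exact pp_of hc hc2 hfree h2 hcard hs x1 hη
  exact glue hc hc2 hfree (key x y hxy) (key x' y' hxy')

/-- the converse for the second functions -/
theorem core_two (h2 : p ≠ 2) (hcard : Fintype.card X = 2 * p) {w : X → ℤ} (hw : SignFn c w)
    {s : G} (hs : OrdP s p X) (hsw : ∀ x : X, w (s • x) = w x) (x1 : X)
    (hD : ∀ (j : ℕ), j.Coprime (Nat.card G) → ∀ x y : X,
      (Dd c x y (s ^ j) : ℚ) + Dd c y x (s ^ j) = Dd c x y s + Dd c y x s)
    (x y x' y' : X) (hxy : ¬ Same c x y) (hxy' : ¬ Same c x' y') :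
    ∃ g : G, (Same c (g • x) x' ∧ Same c (g • y) y') ∨ (Same c (g • x) y' ∧ Same c (g • y) x') := by
  have key : ∀ x y : X, ¬ Same c x y → PP c s x1 x y ∨ PP c s x1 y x := by
    intro x y h
    obtain ⟨k, hk⟩ := exists_k hc hc2 hfree h2 hcard hs x y
    have hk' : Same c (s ^ k.val • x) y := hk
    have hk0 : k ≠ 0 := by
      rintro rfl
      rw [ZMod.val_zero, pow_zero, one_smul] at hk'
      exact h hk'
    obtain ⟨j, hj, hj'⟩ := exists_j hc hc2 hfree hs hk0
    have h3 := hD j hj x y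
    have h5 : Dd c x y (s ^ j) + Dd c y x (s ^ j) = Dd c x y (s ^ 1) + Dd c y x (s ^ 1) := by
      rw [pow_one]; exact_mod_cast h3
    rw [dd_pow hc hc2 hfree hw hsw, dd_pow hc hc2 hfree hw hsw, dd_pow hc hc2 hfree hw hsw,
      dd_pow hc hc2 hfree hw hsw] at h5
    have h6 : 1 ≤ Cn c x y (s ^ j) := by
      apply cn_pos hc hc2 hfree (η := 1)
      rw [one_smul, one_smul, hj']
      exact same_symm hc2 hk'
    have h7 : Cn c x y (s ^ j) + Cn c y x (s ^ j) = Cn c x y (s ^ 1) + Cn c y x (s ^ 1) := by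
      rcases hw.val x with h | h <;> rcases hw.val y with h' | h' <;> rw [h, h'] at h5 <;> linarith
    have h9 := cn_nonneg hc hc2 hfree y x (s ^ j)
    have h10 : 0 < Cn c x y (s ^ 1) ∨ 0 < Cn c y x (s ^ 1) := by
      by_contra hcon
      push Not at hcon
      omega
    rcases h10 with h10 | h10
    · obtain ⟨η, hη⟩ := of_cn_pos hc hc2 hfree h10
      rw [pow_one] at hη
      exact Or.inl (pp_of hc hc2 hfree h2 hcard hs x1 hη)
    · obtain ⟨η, hη⟩ := of_cn_pos hc hc2 hfree h10
      rw [pow_one] at hη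
      exact Or.inr (pp_of hc hc2 hfree h2 hcard hs x1 hη)
  rcases key x y hxy with h | h <;> rcases key x' y' hxy' with h' | h'
  · obtain ⟨g, hg⟩ := glue hc hc2 hfree h h'
    exact ⟨g, Or.inl hg⟩
  · obtain ⟨g, hg⟩ := glue hc hc2 hfree h h'
    exact ⟨g, Or.inr ⟨hg.1, hg.2⟩⟩
  · obtain ⟨g, hg⟩ := glue hc hc2 hfree h h'
    exact ⟨g, Or.inr ⟨hg.2, hg.1⟩⟩
  · obtain ⟨g, hg⟩ := glue hc hc2 hfree h h'
    exact ⟨g, Or.inl ⟨hg.2, hg.1⟩⟩

/-- the converse for the first functions and the larger space -/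
theorem conv_one (h2 : p ≠ 2) (hcard : Fintype.card X = 2 * p)
    (htr : MulAction.IsPretransitive G X) {w : X → ℤ} (hw : SignFn c w) {g0 : G} {x1 y1 : X}
    (hx : Same c (g0 • x1) x1) (hy : ¬ Same c (g0 • y1) y1)
    (hD : ∀ x y : X, (fun g => (Dd c x y g : ℚ)) ∈ VT G) (x y x' y' : X)
    (hxy : ¬ Same c x y) (hxy' : ¬ Same c x' y') : ∃ g : G, Same c (g • x) x' ∧ Same c (g • y) y' := by
  obtain ⟨s, hsN, hs, hsw⟩ := exists_s hc hc2 hfree h2 hcard htr hw hx hy
  refine core_one hc hc2 hfree h2 hcard hw hs hsw x1 (fun j hj x y => ?_) x y x' y' hxy hxy'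
  have h4 := hD x y j hj 1 s hsN
  simp only [one_mul, one_pow, sub_self] at h4
  linarith

/-- the converse for the second functions and the larger space -/
theorem conv_two (h2 : p ≠ 2) (hcard : Fintype.card X = 2 * p)
    (htr : MulAction.IsPretransitive G X) {w : X → ℤ} (hw : SignFn c w) {g0 : G} {x1 y1 : X}
    (hx : Same c (g0 • x1) x1) (hy : ¬ Same c (g0 • y1) y1)
    (hD : ∀ x y : X, (fun g => (Dd c x y g : ℚ) + (Dd c y x g : ℚ)) ∈ VT G) (x y x' y' : X)
    (hxy : ¬ Same c x y) (hxy' : ¬ Same c x' y') :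
    ∃ g : G, (Same c (g • x) x' ∧ Same c (g • y) y') ∨ (Same c (g • x) y' ∧ Same c (g • y) x') := by
  obtain ⟨s, hsN, hs, hsw⟩ := exists_s hc hc2 hfree h2 hcard htr hw hx hy
  refine core_two hc hc2 hfree h2 hcard hw hs hsw x1 (fun j hj x y => ?_) x y x' y' hxy hxy'
  have h4 := hD x y j hj 1 s hsN
  simp only [one_mul, one_pow, sub_self] at h4
  linarith

/-- an element of order `p` with positive sign -/
lemma exists_s' (h2 : p ≠ 2) (hcard : Fintype.card X = 2 * p) (htr : MulAction.IsPretransitive G X)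
    {w : X → ℤ} (hw : SignFn c w) (x1 : X) : ∃ s : G, OrdP s p X ∧ ∀ x : X, w (s • x) = w x := by
  obtain ⟨t, -, ht⟩ := exists_t (p := p) (⊤ : Subgroup G) x1 (fun y => by
    obtain ⟨g, hg⟩ := MulAction.exists_smul_eq G x1 y
    exact ⟨g, Subgroup.mem_top g, hg⟩) hcard
  refine ⟨t ^ 2, ⟨fun x => ?_, ⟨x1, ?_⟩⟩, fun x => ?_⟩
  · rw [← pow_mul, mul_comm, pow_mul_p ht.1]
  · rw [ne_eq, per ht.1 (moved hc hc2 hfree h2 hcard ht x1)]
    intro h
    exact h2 ((Nat.prime_dvd_prime_iff_eq hp.out Nat.prime_two).mp h)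
  · obtain ⟨l, hl, hl'⟩ := hw.equi t
    rw [pow_two, mul_smul, hl', hl']
    rcases hl with rfl | rfl <;> ring

/-- the converse for the first functions and the smaller space -/
theorem conv_one' (h2 : p ≠ 2) (hcard : Fintype.card X = 2 * p)
    (htr : MulAction.IsPretransitive G X) {w : X → ℤ} (hw : SignFn c w) (x1 : X)
    (hD : ∀ x y : X, (fun g => (Dd c x y g : ℚ)) ∈ VZ G) (x y x' y' : X)
    (hxy : ¬ Same c x y) (hxy' : ¬ Same c x' y') : ∃ g : G, Same c (g • x) x' ∧ Same c (g • y) y' := by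
  obtain ⟨s, hs, hsw⟩ := exists_s' hc hc2 hfree h2 hcard htr hw x1
  exact core_one hc hc2 hfree h2 hcard hw hs hsw x1
    (fun j hj x y => hD x y _ _ (zpowers_pow hj s)) x y x' y' hxy hxy'

/-- the converse for the second functions and the smaller space -/
theorem conv_two' (h2 : p ≠ 2) (hcard : Fintype.card X = 2 * p)
    (htr : MulAction.IsPretransitive G X) {w : X → ℤ} (hw : SignFn c w) (x1 : X)
    (hD : ∀ x y : X, (fun g => (Dd c x y g : ℚ) + (Dd c y x g : ℚ)) ∈ VZ G) (x y x' y' : X)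
    (hxy : ¬ Same c x y) (hxy' : ¬ Same c x' y') :
    ∃ g : G, (Same c (g • x) x' ∧ Same c (g • y) y') ∨ (Same c (g • x) y' ∧ Same c (g • y) x') := by
  obtain ⟨s, hs, hsw⟩ := exists_s' hc hc2 hfree h2 hcard htr hw x1
  exact core_two hc hc2 hfree h2 hcard hw hs hsw x1
    (fun j hj x y => hD x y _ _ (zpowers_pow hj s)) x y x' y' hxy hxy'

end

end Pool.Agent.Helper606_PD
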