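import Pool.Agent.Helper606_PD.E
import Pool.Agent.Helper606_CZ.K11

/-!
# Sign functions and imaginary quadratic subfields; Galois subfields
-/

set_option autoImplicit false
set_option linter.unusedSectionVars false

open scoped Classical

open NumberField

namespace Pool.Agent.Helper606_PD

open Pool.Agent.Helper606_CZ Pool.Agent.Q11.CZ

variable {K : Type} [Field K] [NumberField K] [IsGalois ℚ K] [IsCMField K]
variable {E : Type} [Field E] [NumberField E] (F : IntermediateField ℚ E)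

lemma same_iff [IsTotallyReal F] (hE : Module.finrank F E = 2)
    (hfree : ∀ ψ : E →ₐ[ℚ] K, conj K • ψ ≠ ψ) (ψ φ : E →ₐ[ℚ] K) :
    Same (conj K) ψ φ ↔ rs F ψ = rs F φ := by
  constructor
  · rintro (rfl | rfl)
    · rfl
    · exact (rs_conj F ψ).symm
  · intro h
    exact rs_fiber F hE h.symm (hfree ψ)

lemma emb_rat (φ : K →+* ℂ) (q : ℚ) : φ (algebraMap ℚ K q) = (q : ℂ) := by
  rw [eq_ratCast, map_ratCast]

omit [IsGalois ℚ K] in
/-- complex conjugation on the square roots of negative rational numbers -/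
lemma conj_neg {z : K} {q : ℚ} (hq : q < 0) (hz : z ^ 2 = algebraMap ℚ K q) : conj K z = - z := by
  obtain ⟨φ⟩ : Nonempty (K →+* ℂ) := inferInstance
  apply φ.injective
  rw [emb_conj, map_neg]
  have h1 : (φ z) ^ 2 = (q : ℂ) := by
    rw [← map_pow, hz, eq_ratCast, map_ratCast]
  have h2 : (starRingEnd ℂ (φ z)) ^ 2 = (q : ℂ) := by
    rw [← map_pow, h1, map_ratCast]
  have h3 : (starRingEnd ℂ (φ z)) ^ 2 = (φ z) ^ 2 := by rw [h1, h2]
  rcases sq_eq_sq_iff_eq_or_eq_neg.mp h3 with h4 | h4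
  · exfalso
    rw [Complex.conj_eq_iff_real] at h4
    obtain ⟨r, hr⟩ := h4
    rw [hr] at h1
    have h5 : (r : ℝ) ^ 2 = (q : ℝ) := by exact_mod_cast h1
    have h6 : (q : ℝ) < 0 := by exact_mod_cast hq
    nlinarith [sq_nonneg r]
  · exact h4

theorem sign_of_sqrt (ψ0 : E →ₐ[ℚ] K) {x : E} {q : ℚ} (hq : q < 0) (hx : x ^ 2 = algebraMap ℚ E q) :
    (∀ ψ : E →ₐ[ℚ] K, conj K • ψ ≠ ψ) ∧ ∃ w : (E →ₐ[ℚ] K) → ℤ, SignFn (conj K) w := by
  have h1 : ∀ ψ : E →ₐ[ℚ] K, (ψ x) ^ 2 = algebraMap ℚ K q := fun ψ => by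
    rw [← map_pow, hx, AlgHom.commutes]
  have h0 : ∀ ψ : E →ₐ[ℚ] K, ψ x ≠ 0 := by
    intro ψ h
    have h3 := h1 ψ
    rw [h, zero_pow (by norm_num)] at h3
    exact hq.ne ((map_eq_zero _).mp h3.symm)
  have h2 : ∀ z : K, z ^ 2 = algebraMap ℚ K q → z = ψ0 x ∨ z = - ψ0 x := fun z hz =>
    sq_eq_sq_iff_eq_or_eq_neg.mp (by rw [hz, h1])
  have h3 : - ψ0 x ≠ ψ0 x := fun h => h0 ψ0 (neg_eq_self.mp h)
  have hc : ∀ ψ : E →ₐ[ℚ] K, (conj K • ψ) x = - ψ x := fun ψ => conj_neg hq (h1 ψ)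
  refine ⟨fun ψ h => ?_, fun ψ => if ψ x = ψ0 x then 1 else -1, ?_, ?_, ?_⟩
  · have h4 := hc ψ
    rw [h] at h4
    exact h0 ψ (self_eq_neg.mp h4)
  · intro ψ
    by_cases h : ψ x = ψ0 x
    · exact Or.inl (if_pos h)
    · exact Or.inr (if_neg h)
  · intro ψ
    simp only [hc]
    rcases h2 _ (h1 ψ) with h | h
    · rw [h, if_neg h3, if_pos rfl]
    · rw [h, neg_neg, if_pos rfl, if_neg h3]; norm_num
  · intro g
    have hg : ∀ ψ : E →ₐ[ℚ] K, (g • ψ) x = g (ψ x) := fun ψ => rfl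
    rcases h2 (g (ψ0 x)) (h1 (g • ψ0)) with h | h
    · refine ⟨1, Or.inl rfl, fun ψ => ?_⟩
      simp only [hg]
      rcases h2 _ (h1 ψ) with h' | h'
      · rw [h', h, if_pos rfl]; norm_num
      · rw [h', map_neg, h, if_neg h3]; norm_num
    · refine ⟨-1, Or.inr rfl, fun ψ => ?_⟩
      simp only [hg]
      rcases h2 _ (h1 ψ) with h' | h'
      · rw [h', h, if_neg h3, if_pos rfl]; norm_num
      · rw [h', map_neg, h, neg_neg, if_pos rfl, if_neg h3]; norm_num

theorem sqrt_of_sign (ψ0 : E →ₐ[ℚ] K) {w : (E →ₐ[ℚ] K) → ℤ} (hw : SignFn (conj K) w) :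
    ∃ (x : E) (q : ℚ), q < 0 ∧ x ^ 2 = algebraMap ℚ E q := by
  have hcH : conj K ∉ Ker hw := by
    intro h
    have h1 := h ψ0
    rw [hw.odd] at h1
    rcases hw.val ψ0 with h2 | h2 <;> rw [h2] at h1 <;> norm_num at h1
  have hH : ∀ g : K ≃ₐ[ℚ] K, g ∈ Ker hw ∨ conj K * g ∈ Ker hw := by
    intro g
    obtain ⟨l, hl, hl'⟩ := hw.equi g
    rcases hl with rfl | rfl
    · exact Or.inl (fun x => by rw [hl', one_mul])
    · exact Or.inr (fun x => by rw [mul_smul, hw.odd, hl']; ring)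
  obtain ⟨a, ha, hca⟩ : ∃ a ∈ IntermediateField.fixedField (Ker hw), conj K a ≠ a := by
    by_contra hcon
    push Not at hcon
    apply hcH
    rw [← IntermediateField.fixingSubgroup_fixedField (Ker hw),
      IntermediateField.mem_fixingSubgroup_iff]
    exact hcon
  rw [IntermediateField.mem_fixedField_iff] at ha
  have hcc : ∀ z : K, conj K (conj K z) = z := fun z =>
    congrArg (fun f : K ≃ₐ[ℚ] K => f z) conj_mul_self
  obtain ⟨r, hr⟩ : ∃ r, r = a - conj K a := ⟨_, rfl⟩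
  have hr0 : r ≠ 0 := by rw [hr]; exact sub_ne_zero.mpr (Ne.symm hca)
  have hcr : conj K r = - r := by
    rw [hr, map_sub, hcc a]; ring
  have hgr : ∀ g ∈ Ker hw, g r = r := by
    intro g hg
    have h1 : g (conj K a) = conj K (g a) :=
      congrArg (fun f : K ≃ₐ[ℚ] K => f a) (conj_comm g).symm
    rw [hr, map_sub, h1, ha g hg]
  have hgr2 : ∀ g : K ≃ₐ[ℚ] K, g (r ^ 2) = r ^ 2 := by
    intro g
    rcases hH g with h | h
    · rw [map_pow, hgr g h]
    · have h1 : conj K (g r) = r := hgr _ h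
      have h2 : g r = - r := by
        have h3 := congrArg (conj K) h1
        rw [hcc, hcr] at h3
        exact h3
      rw [map_pow, h2]; ring
  obtain ⟨q, hq⟩ : ∃ q : ℚ, algebraMap ℚ K q = r ^ 2 :=
    (IsGalois.mem_range_algebraMap_iff_fixed (F := ℚ) (r ^ 2)).mpr hgr2
  obtain ⟨x, hx⟩ : ∃ x : E, ψ0 x = r := by
    have h1 : r ∈ ψ0.fieldRange := by
      rw [← IsGalois.fixedField_fixingSubgroup ψ0.fieldRange, IntermediateField.mem_fixedField_iff]
      intro g hg
      rw [fix_range] at hg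
      apply hgr
      obtain ⟨l, hl, hl'⟩ := hw.equi g
      have h2 := hl' ψ0
      rw [hg] at h2
      have hl1 : l = 1 := by
        rcases hw.val ψ0 with h | h <;> rw [h] at h2 <;> linarith
      intro y
      rw [hl', hl1, one_mul]
    exact h1
  refine ⟨x, q, ?_, ?_⟩
  · obtain ⟨φ⟩ : Nonempty (K →+* ℂ) := inferInstance
    have h1 : starRingEnd ℂ (φ r) = - φ r := by rw [← emb_conj, hcr, map_neg]
    have h2 : (φ r) ^ 2 = (q : ℂ) := by rw [← map_pow, ← hq, eq_ratCast, map_ratCast]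
    have h3 : (φ r).re = 0 := by
      have h4 := congrArg Complex.re h1
      rw [Complex.conj_re, Complex.neg_re] at h4
      linarith
    have h4 : (φ r).im ≠ 0 := by
      intro h
      apply hr0
      apply φ.injective
      rw [map_zero]
      exact Complex.ext h3 h
    have h5 : ((φ r) ^ 2).re = q := by rw [h2, Complex.ratCast_re]
    rw [pow_two, Complex.mul_re, h3] at h5
    have h6 : (q : ℝ) < 0 := by
      rw [← h5]
      have := mul_self_pos.mpr h4
      linarith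
    exact_mod_cast h6
  · apply ψ0.injective
    change ψ0 (x ^ 2) = ψ0 (algebraMap ℚ E q)
    rw [map_pow, hx, AlgHom.commutes, hq]

/-- the stabilizers of the embeddings of a Galois extension -/
lemma gal_fix [IsGalois ℚ F] (g : K ≃ₐ[ℚ] K) (a b : F →ₐ[ℚ] K) (h : g • a = a) : g • b = b := by
  let _ : Algebra F K := a.toRingHom.toAlgebra
  have _ : IsScalarTower ℚ F K := IsScalarTower.of_algebraMap_eq fun q => (a.commutes q).symm
  apply AlgHom.ext
  intro x
  have h1 : a (b.restrictNormal F x) = b x := AlgHom.restrictNormal_commutes b F x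
  change g (b x) = b x
  rw [← h1]
  exact congrArg (fun f : F →ₐ[ℚ] K => f (b.restrictNormal F x)) h

lemma gal_of_fix (a : F →ₐ[ℚ] K)
    (h : ∀ (g : K ≃ₐ[ℚ] K) (b b' : F →ₐ[ℚ] K), g • b = b → g • b' = b') : IsGalois ℚ F := by
  have hn : (a.fieldRange.fixingSubgroup).Normal := by
    refine ⟨fun n hn g => ?_⟩
    rw [fix_range] at hn ⊢
    have h1 := h n a (g⁻¹ • a) hn
    rw [mul_smul, mul_smul, h1, smul_inv_smul]
  have h2 : IsGalois ℚ (IntermediateField.fixedField a.fieldRange.fixingSubgroup) :=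
    IsGalois.of_fixedField_normal_subgroup _
  rw [IsGalois.fixedField_fixingSubgroup] at h2
  exact @IsGalois.of_algEquiv ℚ a.fieldRange _ _ F _ _ _ h2 a.equivFieldRange.symm

end Pool.Agent.Helper606_PD
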